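import Pool.Agent.helper80.SV.Spec

/-!
# Project sv: (MP_b5a345_ag), module RKU
-/

set_option autoImplicit false

namespace Pool.Agent.SV

open MvPolynomial Module

/-- rank-nullity comparison -/
theorem rku_rank_le {E F G : Type} [AddCommGroup E] [Module ℂ E] [Module.Finite ℂ E]
    [AddCommGroup F] [Module ℂ F] [AddCommGroup G] [Module ℂ G]
    (L : E →ₗ[ℂ] F) (M : E →ₗ[ℂ] G)
    (h : LinearMap.ker M ≤ LinearMap.ker L) :
    finrank ℂ (LinearMap.range L) ≤ finrank ℂ (LinearMap.range M) := by
  have h1 := LinearMap.finrank_range_add_finrank_ker L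
  have h2 := LinearMap.finrank_range_add_finrank_ker M
  have h3 := Submodule.finrank_mono h
  omega

theorem rku_pderiv_zero {ι κ : Type} [Fintype ι] [DecidableEq ι] [Fintype κ] [DecidableEq κ]
    (c : ι → κ) (A : Finset ι) (d : κ → ℕ) (f : MvPolynomial ι ℂ) (hf : f ∈ Sec c A d) (i : ι)
    (hi : d (c i) = 0) : pderiv i f = 0 := by
  apply pderiv_eq_zero_of_notMem_vars
  intro hv
  rw [mem_vars_iff_mem_support] at hv
  obtain ⟨m, hm, hmi⟩ := hv
  rw [mem_Sec] at hf
  have h1 := hf m (by simpa [MvPolynomial.mem_support_iff] using hm)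
  have h2 := h1.2 (c i)
  rw [hi, Finset.sum_eq_zero_iff] at h2
  have h3 := h2 i (by simp)
  rw [Finsupp.mem_support_iff] at hmi
  exact hmi h3

/-- step (i) -/
theorem rku_good (hEUL : EUL_stmt) (hHOM : HOM_stmt) {ι κ : Type} [Fintype ι] [DecidableEq ι]
    [Fintype κ] [DecidableEq κ] (c : ι → κ) (A : Finset ι) (d : κ → ℕ)
    (hA : ∀ k, ∃ i ∈ A, c i = k) (x : ι → ℂ) (hx : ∀ i, x i ≠ 0) :
    finrank ℂ (LinearMap.range (Phi1 c A d false x)) ≤ Dk c A d := by
  classical
  choose o hoA hoc using hA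
  let S : Finset ι := A.filter (fun i => i ≠ o (c i) ∧ 1 ≤ d (c i))
  let y : ι → ℂ := cut A x
  let ψ : ↥(Sec c A d) →ₗ[ℂ] (Option S → ℂ) :=
    LinearMap.pi (fun s => match s with
      | none => (evL y) ∘ₗ (Sec c A d).subtype
      | some i => ((evL y) ∘ₗ (pderiv (i : ι)).toLinearMap) ∘ₗ (Sec c A d).subtype)
  have hψ0 : ∀ g, ψ g none = eval y (g : MvPolynomial ι ℂ) := by
    intro g
    simp [ψ]
  have hψ1 : ∀ g (i : S), ψ g (some i) = eval y (pderiv (i : ι) (g : MvPolynomial ι ℂ)) := by
    intro g i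
    simp [ψ]
  have hker : LinearMap.ker ψ ≤ LinearMap.ker (Phi1 c A d false x) := by
    intro g hg
    rw [LinearMap.mem_ker] at hg ⊢
    have h0 : eval y (g : MvPolynomial ι ℂ) = 0 := by
      rw [← hψ0, hg]
      rfl
    have h1 : ∀ i ∈ S, eval y (pderiv i (g : MvPolynomial ι ℂ)) = 0 := by
      intro i hi
      have := hψ1 g ⟨i, hi⟩
      rw [hg] at this
      exact this.symm
    have hgS : (g : MvPolynomial ι ℂ) ∈ Sec c A d := g.2
    obtain ⟨-, -, hH, -, -⟩ := hHOM c A d g hgS
    have h2 : ∀ i ∈ A, eval y (pderiv i (g : MvPolynomial ι ℂ)) = 0 := by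
      intro i hi
      by_cases hd : d (c i) = 0
      · rw [rku_pderiv_zero c A d g hgS i hd]
        simp
      by_cases hio : i = o (c i)
      · have h3 := hEUL c A d g hgS (c i) y
        rw [h0, mul_zero] at h3
        rw [Finset.sum_eq_single i] at h3
        · have hy : y i ≠ 0 := by
            simp only [y, cut, hi, if_true]
            exact hx i
          exact (mul_eq_zero.mp h3).resolve_left hy
        · intro j hj hji
          simp only [Finset.mem_filter, Finset.mem_univ, true_and] at hj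
          by_cases hjA : j ∈ A
          · rw [h1 j, mul_zero]
            simp only [S, Finset.mem_filter]
            refine ⟨hjA, ?_, ?_⟩
            · rw [hj]
              intro h4
              exact hji (h4.trans hio.symm)
            · rw [hj]
              omega
          · rw [hH j hjA]
            simp
        · intro h4
          exact absurd (by simp) h4
      · apply h1
        simp only [S, Finset.mem_filter]
        exact ⟨hi, hio, by omega⟩
    have h3 : Phi1 c A d false x g = gradL A (cut A x) (g : MvPolynomial ι ℂ) := by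
      simp [Phi1]
    rw [h3]
    funext i
    rw [gradL_apply]
    by_cases hi : i ∈ A
    · rw [if_pos hi]
      exact h2 i hi
    · rw [if_neg hi]
      rfl
  refine (rku_rank_le _ ψ hker).trans ?_
  refine (Submodule.finrank_le _).trans ?_
  rw [Module.finrank_fintype_fun_eq_card, Fintype.card_option, Fintype.card_coe]
  unfold Dk
  rw [add_comm]
  refine Nat.add_le_add_left ?_ 1
  have hmap : ∀ i ∈ S, c i ∈ Finset.univ.filter (fun k => 1 ≤ d k) := by
    intro i hi
    simp only [S, Finset.mem_filter] at hi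
    simp only [Finset.mem_filter, Finset.mem_univ, true_and]
    exact hi.2.2
  rw [Finset.card_eq_sum_card_fiberwise hmap]
  apply Finset.sum_le_sum
  intro k hk
  have h4 : S.filter (fun i => c i = k) ⊆ (A.filter (fun i => c i = k)).erase (o k) := by
    intro i hi
    simp only [S, Finset.mem_filter] at hi
    rw [Finset.mem_erase, Finset.mem_filter]
    refine ⟨?_, hi.1.1, hi.2⟩
    rw [← hi.2]
    exact hi.1.2.1
  refine (Finset.card_le_card h4).trans ?_
  rw [Finset.card_erase_of_mem]
  rw [Finset.mem_filter]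
  exact ⟨hoA k, hoc k⟩

/-- step (ii) -/
theorem rku_all (hEUL : EUL_stmt) (hHOM : HOM_stmt) (hT1 : T1_stmt) (hPLY : PLY_stmt)
    {ι κ : Type} [Fintype ι] [DecidableEq ι]
    [Fintype κ] [DecidableEq κ] (c : ι → κ) (A : Finset ι) (d : κ → ℕ)
    (hA : ∀ k, ∃ i ∈ A, c i = k) (x : ι → ℂ) :
    finrank ℂ (LinearMap.range (Phi1 c A d false x)) ≤ Dk c A d := by
  classical
  let w : ι → ℂ := fun _ => 1
  let ln : ℂ → ι → ℂ := fun t => x + t • (w - x)
  have hln : ∀ t i, ln t i = x i + t * (1 - x i) := by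
    intro t i
    simp [ln, w]
  let L : ℂ → ↥(Sec c A d) →ₗ[ℂ] (ι → ℂ) := fun t => Phi1 c A d false (ln t)
  have hL : ∀ v j, PolyFun (fun t => L t v j) := by
    intro v j
    exact (hPLY (ι := ι) (κ := κ)).2.2 c A d false x w v j
  have h0 : L 0 = Phi1 c A d false x := by
    have : ln 0 = x := by
      funext i
      rw [hln]
      ring
    simp only [L, this]
  have h1 := hT1 L hL (finrank ℂ (LinearMap.ker (L 0))) 0 le_rfl
  have h2 : ∀ i : ι, {t : ℂ | ln t i = 0}.Finite := by
    intro i
    have h3 : PolyFun (fun t : ℂ => x i + t * (1 - x i)) :=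
      (PolyFun.const _).add (PolyFun.id.mul (PolyFun.const _))
    have h4 := h3.finite_zeros (t₀ := 1) (by simp)
    refine h4.subset ?_
    intro t ht
    change ln t i = 0 at ht
    rw [hln] at ht
    exact ht
  have h3 : (⋃ i : ι, {t : ℂ | ln t i = 0}).Finite :=
    Set.finite_iUnion h2
  obtain ⟨t, ht⟩ := Set.Infinite.exists_notMem_finite (Set.infinite_univ (α := ℂ)) (h1.union h3)
  have ht' := ht.2
  rw [Set.mem_union, not_or] at ht'
  obtain ⟨ht1, ht2⟩ := ht'
  have ht3 : finrank ℂ (LinearMap.ker (L t)) ≤ finrank ℂ (LinearMap.ker (L 0)) := by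
    by_contra hcon
    exact ht1 hcon
  have ht4 : ∀ i, ln t i ≠ 0 := by
    intro i hi
    exact ht2 (Set.mem_iUnion.mpr ⟨i, hi⟩)
  have h5 := rku_good hEUL hHOM c A d hA _ ht4
  have h6 := LinearMap.finrank_range_add_finrank_ker (L t)
  have h7 := LinearMap.finrank_range_add_finrank_ker (L 0)
  rw [← h0]
  have h8 : finrank ℂ (LinearMap.range (L t)) ≤ Dk c A d := h5
  omega

theorem RKU (hEUL : EUL_stmt) (hHOM : HOM_stmt) (hT1 : T1_stmt) (hPLY : PLY_stmt)
    (hCUT : CUT_stmt) : RKU_stmt := by
  intro ι κ _ _ _ _ c A B d hAB hA x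
  have h1 := rku_all hEUL hHOM hT1 hPLY c A d hA x
  refine ⟨h1, ?_, ?_⟩
  · refine le_trans (Submodule.finrank_mono ?_) h1
    rintro _ ⟨f, rfl⟩
    obtain ⟨g, hg, -, hg2⟩ := (hCUT c A B d hAB).2 f f.2
    refine ⟨⟨g, hg⟩, ?_⟩
    have h2 := hg2 x
    simpa [Phi1, Phi] using h2
  · have hB : ∀ k, ∃ i ∈ B, c i = k := by
      intro k
      obtain ⟨i, hi, hik⟩ := hA k
      exact ⟨i, hAB hi, hik⟩
    have h2 := rku_all hEUL hHOM hT1 hPLY c B d hB x
    have h3 : Phi c A B d true x = Phi1 c B d false x := by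
      apply LinearMap.ext
      intro f
      have h4 : Phi c A B d true x f = gradL B x (f : MvPolynomial ι ℂ) := by simp [Phi]
      have h5 : Phi1 c B d false x f = gradL B (cut B x) (f : MvPolynomial ι ℂ) := by simp [Phi1]
      rw [h4, h5]
      funext i
      rw [gradL_apply, gradL_apply]
      by_cases hi : i ∈ B
      · rw [if_pos hi, if_pos hi]
        obtain ⟨-, -, -, h6, -⟩ := hHOM c B d f f.2
        rcases h6 i with h7 | h7
        · obtain ⟨-, -, -, -, h8⟩ := hHOM c B (low d (c i)) _ h7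
          exact (h8 x).symm
        · rw [h7]
          simp
      · rw [if_neg hi, if_neg hi]
    rw [h3]
    exact h2

end Pool.Agent.SV

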